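import Pool.Agent.Q211.HC.Cone
import Pool.Agent.Q211.HC.Upper2

/-!
# The maximal density `p_2` of 2-dependent hard-core processes is larger than `1/3`

The predicate `IsHardCoreLaw` and the constants `pk` are defined in `Pool.Agent.Q211.HC.Upper`.
-/

set_option autoImplicit false

open MeasureTheory ProbabilityTheory Filter Topology

namespace Pool.Agent.Results.MP_38bc51_pr.TwoDependentDensity

open Pool.Agent.Q211.HC

/-- The set of densities. -/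
def dens (k : ℕ) : Set ℝ :=
  {r | ∃ μ : Measure (ℤ → Fin 2), IsHardCoreLaw k μ ∧ μ.real {x | x 0 = 1} = r}

theorem exists_law : ∃ μ : Measure (ℤ → Fin 2), IsHardCoreLaw 2 μ ∧
    μ.real {x | x 0 = 1} = 9 / 25 := by
  obtain ⟨κ, hκ, h⟩ := exists_kappa wlaw
  refine ⟨κ, law_of_win wlaw hκ h, ?_⟩
  have h1 := h 0 [1]
  have e1 : {x : ℤ → Fin 2 | win x 0 [(1 : Fin 2)].length = [1]} = {x | x 0 = 1} := by
    ext x
    simp [win, List.range_succ]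
  rw [e1] at h1
  unfold Measure.real
  rw [h1]
  unfold q
  have h2 : PW [1] = 9 / 25 := by
    show (m1 s0).p = 9 / 25
    simp only [m1, s0]
    norm_num
  rw [h2, ENNReal.toReal_ofReal (by norm_num)]

theorem bdd (k : ℕ) : BddAbove (dens k) := by
  refine ⟨1, ?_⟩
  rintro r ⟨μ, hμ, rfl⟩
  have := hμ.prob
  exact measureReal_le_one

theorem mem_dens {k : ℕ} (hk : 2 ≤ k) : (9 / 25 : ℝ) ∈ dens k := by
  obtain ⟨μ, hμ, h⟩ := exists_law
  exact ⟨μ, hμ.mono hk, h⟩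

theorem lower {k : ℕ} (hk : 2 ≤ k) : 9 / 25 ≤ pk k := le_csSup (bdd k) (mem_dens hk)

theorem rho_zero (μ : Measure (ℤ → Fin 2)) : rho μ {0} = μ.real {x | x 0 = 1} := by
  unfold rho
  congr 1
  ext x
  simp [occ]

theorem numeric {p a b : ℝ} (hp : 187 / 500 < p) (hp2 : 2 * p ≤ 1)
    (h1 : 0 ≤ b - a + p - a ^ 2 - 2 * p * b + 4 * p * a - 4 * p ^ 2 + 2 * p ^ 3)
    (h2 : 0 ≤ 2 * b - 2 * a + p - a ^ 2 - p * b + 3 * p * a - 2 * p ^ 2 - p ^ 3)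
    (h3 : 0 ≤ - a ^ 2 - p * b + p * a) : False := by
  have g1 : 0 ≤ p ^ 2 * (1 - 4 * p + 2 * p ^ 2) + 2 * p ^ 2 * a - (1 - p) * a ^ 2 := by
    have i1 := mul_nonneg (by linarith : (0 : ℝ) ≤ p) h1
    have i2 := mul_nonneg (by linarith : (0 : ℝ) ≤ 1 - 2 * p) h3
    nlinarith
  have g2 : 0 ≤ p ^ 2 * (1 - 2 * p - p ^ 2) + 2 * p ^ 2 * a - 2 * a ^ 2 := by
    have i1 := mul_nonneg (by linarith : (0 : ℝ) ≤ p) h2
    have i2 := mul_nonneg (by linarith : (0 : ℝ) ≤ 2 - p) h3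
    nlinarith
  -- combination with the multiplier `141/1250`
  set l : ℝ := 141 / 1250 with hl
  set A : ℝ := 1 - p + 2 * l with hA
  set C : ℝ := (1 - 4 * p + 2 * p ^ 2) + l * (1 - 2 * p - p ^ 2) with hC
  have hA0 : 0 < A := by rw [hA, hl]; linarith
  have g3 : 0 ≤ p ^ 2 * C + 2 * p ^ 2 * (1 + l) * a - A * a ^ 2 := by
    have : 0 ≤ l * (p ^ 2 * (1 - 2 * p - p ^ 2) + 2 * p ^ 2 * a - 2 * a ^ 2) :=
      mul_nonneg (by rw [hl]; norm_num) g2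
    rw [hC, hA]
    nlinarith
  have hD : p ^ 2 * (1 + l) ^ 2 + A * C < 0 := by
    rw [hA, hC, hl]
    nlinarith [mul_nonneg (by linarith : (0 : ℝ) ≤ p - 187 / 500) (by linarith : (0 : ℝ) ≤ 1 - 2 * p),
      mul_nonneg (mul_nonneg (by linarith : (0 : ℝ) ≤ p - 187 / 500)
        (by linarith : (0 : ℝ) ≤ 1 - 2 * p)) (by linarith : (0 : ℝ) ≤ p)]
  have g4 : A * (p ^ 2 * C + 2 * p ^ 2 * (1 + l) * a - A * a ^ 2) =
      p ^ 2 * (p ^ 2 * (1 + l) ^ 2 + A * C) - (A * a - p ^ 2 * (1 + l)) ^ 2 := by ring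
  have g5 := mul_nonneg hA0.le g3
  rw [g4] at g5
  have g6 : p ^ 2 * (p ^ 2 * (1 + l) ^ 2 + A * C) < 0 :=
    mul_neg_of_pos_of_neg (by positivity) hD
  nlinarith [sq_nonneg (A * a - p ^ 2 * (1 + l))]

theorem upper_bound : pk 2 ≤ 187 / 500 := by
  refine csSup_le ⟨_, mem_dens le_rfl⟩ ?_
  rintro r ⟨μ, hμ, rfl⟩
  by_contra hcon
  push Not at hcon
  rw [← rho_zero] at hcon
  obtain ⟨h1, h2, h3⟩ := upper2 hμ
  exact numeric hcon (upper hμ).2.2 h1 h2 h3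

/-- `p_2` lies between `9/25` and `187/500`; in particular `p_2 ≠ 1/3`, and `p_k > 1/3` for every
`k ≥ 2`. -/
theorem result : 9 / 25 ≤ pk 2 ∧ pk 2 ≤ 187 / 500 ∧ pk 2 ≠ 1 / 3 ∧
    (∃ μ : Measure (ℤ → Fin 2), IsHardCoreLaw 2 μ ∧ μ.real {x | x 0 = 1} = 9 / 25) ∧
    ∀ k : ℕ, 2 ≤ k → 9 / 25 ≤ pk k := by
  refine ⟨lower le_rfl, upper_bound, ?_, exists_law, fun k hk => lower hk⟩
  have := lower (k := 2) le_rfl
  intro h
  rw [h] at this
  norm_num at this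

end Pool.Agent.Results.MP_38bc51_pr.TwoDependentDensity
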